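import Pool.Agent.W626.AH.Stm
import Pool.Agent.H67R3.RH3

/-!
# AH-FIN (helper683 for helper626): the set of acylindrically hyperbolic marked groups is Borel
-/

set_option autoImplicit false

namespace Pool.Agent.W683.AH

open Pool.Agent.W626.AH Pool.Agent.H67R3.RHDefs
open Pool.Agent.H67R3.RH (vc_iff meas_mem borel_image)

section

variable (n : ℕ)

noncomputable local instance instMS : MeasurableSpace (Marked n) := borel _

local instance instBS : BorelSpace (Marked n) := ⟨rfl⟩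

variable {n}

/-- the closed sets -/
def CS (n R M q B : ℕ) (g : FreeGroup (Fin n)) : Set (Marked n) :=
  {N : Marked n | ∃ ℓ : FreeGroup (Fin n) → ℝ, ℓ ∈ box n ∧ FCond N.1 ℓ R M g q B}

lemma ah_iff (hsca : S_sca) (hbac : S_bac) (hfg : S_fg) (N : Marked n) :
    AcylindricallyHyperbolic (FreeGroup (Fin n) ⧸ N.1) ↔
      ¬ VirtuallyCyclic (FreeGroup (Fin n) ⧸ N.1) ∧
      ∃ (R M q B : ℕ) (g : FreeGroup (Fin n)), N ∈ CS n R M q B g := by
  constructor
  · intro h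
    refine ⟨h.1, ?_⟩
    obtain ⟨ℓ, R, M, g, q, B, h1, h2, h3⟩ := hsca (FreeGroup (Fin n) ⧸ N.1) n
      (fun i => QuotientGroup.mk (FreeGroup.of i)) h
    obtain ⟨ℓ', g', h4, h5⟩ := (hfg n N R M q B).1 ⟨ℓ, g, h1, h2, h3⟩
    exact ⟨R, M, q, B, g', ℓ', h4, h5⟩
  · rintro ⟨h0, R, M, q, B, g, ℓ, h1, h2⟩
    obtain ⟨ℓ', g', h3, -, -⟩ := (hfg n N R M q B).2 ⟨ℓ, g, h1, h2⟩
    exact ⟨h0, hbac _ ℓ' R M g' q B h3⟩

lemma meas_vc : Measurable (fun N : Marked n => VirtuallyCyclic (FreeGroup (Fin n) ⧸ N.1)) := by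
  simp only [vc_iff]
  fun_prop

lemma meas_ah (hsca : S_sca) (hbac : S_bac) (hfg : S_fg) (hpro : S_pro) :
    MeasurableSet {N : Marked n | AcylindricallyHyperbolic (FreeGroup (Fin n) ⧸ N.1)} := by
  have e : {N : Marked n | AcylindricallyHyperbolic (FreeGroup (Fin n) ⧸ N.1)} =
      {N : Marked n | VirtuallyCyclic (FreeGroup (Fin n) ⧸ N.1)}ᶜ ∩
      ⋃ (R : ℕ), ⋃ (M : ℕ), ⋃ (q : ℕ), ⋃ (B : ℕ), ⋃ (g : FreeGroup (Fin n)), CS n R M q B g := by
    ext N
    simp only [Set.mem_setOf_eq, Set.mem_inter_iff, Set.mem_compl_iff, Set.mem_iUnion]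
    exact ah_iff hsca hbac hfg N
  rw [e]
  refine ((measurableSet_setOfPred).2 meas_vc).compl.inter ?_
  exact MeasurableSet.iUnion fun R => MeasurableSet.iUnion fun M => MeasurableSet.iUnion fun q =>
    MeasurableSet.iUnion fun B => MeasurableSet.iUnion fun g => (hpro n R M q B g).measurableSet

end

/-- FIN -/
theorem main : Pool.Agent.W626.AH.S_sca → Pool.Agent.W626.AH.S_bac → Pool.Agent.W626.AH.S_fg →
    Pool.Agent.W626.AH.S_pro → Pool.Agent.W626.AH.S_fin := by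
  intro hsca hbac hfg hpro
  unfold S_fin
  have h1 : AHset = ⋃ n : ℕ+, Sigma.mk n '' {N : Marked n |
      AcylindricallyHyperbolic (FreeGroup (Fin n) ⧸ N.1)} := by
    ext ⟨n, N⟩
    simp only [Set.mem_iUnion, Set.mem_image]
    constructor
    · intro h
      exact ⟨n, N, h, rfl⟩
    · rintro ⟨n', N', h, heq⟩
      obtain ⟨rfl, h2⟩ := Sigma.mk.inj heq
      rw [← eq_of_heq h2]
      exact h
  rw [h1]
  apply @MeasurableSet.iUnion _ _ (borel MarkedGroups)
  intro n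
  exact borel_image Topology.IsOpenEmbedding.sigmaMk (meas_ah hsca hbac hfg hpro)

end Pool.Agent.W683.AH
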